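import Pool.Agent.Helper1.DP2.ClsInt

set_option autoImplicit false

namespace Pool.Agent.Helper8.DP2

/-- witnesses at `41` and `89`, listed by codes -/
def tabc4 : List ((ℤ × ℤ × ℤ) × (ℤ × ℤ × ℤ)) :=
  [((0, 0, 0), (0, 0, 0)), ((0, 0, 0), (0, 0, 0)),
   ((0, 0, 0), (0, 0, 0)), ((11, -10, 0), (0, 7, -9)),
   ((11, -10, 0), (4, 3, -16)), ((0, 0, 0), (0, 0, 0)),
   ((0, 0, 0), (0, 0, 0)), ((11, -10, 0), (4, 3, 16)),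
   ((11, -10, 0), (4, 16, -3)), ((0, 0, 0), (0, 0, 0)),
   ((0, 0, 0), (0, 0, 0)), ((11, -10, 0), (4, 16, 3)),
   ((0, 11, -10), (0, 7, -9)), ((0, 0, 0), (0, 0, 0)),
   ((0, 0, 0), (0, 0, 0)), ((11, 0, -10), (0, 7, -9)),
   ((11, -10, 0), (16, 4, -3)), ((0, 0, 0), (0, 0, 0)),
   ((0, 0, 0), (0, 0, 0)), ((11, -10, 0), (16, 4, 3)),
   ((11, -10, 0), (14, 1, -9)), ((0, 0, 0), (0, 0, 0)),
   ((0, 0, 0), (0, 0, 0)), ((11, -10, 0), (1, 14, -9)),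
   ((0, 11, -10), (1, 14, -9)), ((0, 0, 0), (0, 0, 0)),
   ((0, 0, 0), (0, 0, 0)), ((0, 11, -10), (14, 1, -9)),
   ((11, -10, 0), (16, -4, 3)), ((0, 0, 0), (0, 0, 0)),
   ((0, 0, 0), (0, 0, 0)), ((11, -10, 0), (16, -4, -3)),
   ((11, -10, 0), (3, 4, -16)), ((0, 0, 0), (0, 0, 0)),
   ((0, 0, 0), (0, 0, 0)), ((11, -10, 0), (3, 4, 16)),
   ((0, 11, -10), (14, -1, -9)), ((0, 0, 0), (0, 0, 0)),
   ((0, 0, 0), (0, 0, 0)), ((0, 11, -10), (1, -14, -9)),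
   ((11, -10, 0), (1, -14, -9)), ((0, 0, 0), (0, 0, 0)),
   ((0, 0, 0), (0, 0, 0)), ((11, -10, 0), (14, -1, -9)),
   ((11, -10, 0), (3, -4, 16)), ((0, 0, 0), (0, 0, 0)),
   ((0, 0, 0), (0, 0, 0)), ((11, -10, 0), (3, -4, -16)),
   ((11, 0, -10), (0, 9, -7)), ((0, 0, 0), (0, 0, 0)),
   ((0, 0, 0), (0, 0, 0)), ((0, 11, -10), (0, 9, -7)),
   ((11, -10, 0), (4, -3, -16)), ((0, 0, 0), (0, 0, 0)),
   ((0, 0, 0), (0, 0, 0)), ((11, -10, 0), (4, -3, 16)),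
   ((11, -10, 0), (4, -16, -3)), ((0, 0, 0), (0, 0, 0)),
   ((0, 0, 0), (0, 0, 0)), ((11, -10, 0), (4, -16, 3)),
   ((11, -10, 0), (0, 9, -7)), ((0, 0, 0), (0, 0, 0)),
   ((0, 0, 0), (0, 0, 0)), ((0, 0, 0), (0, 0, 0))]

def codec4 (v : Fin 7 → ZMod 2) : ℕ :=
  (v 0 + v 6).val + 2 * (v 1 + v 6).val + 4 * (v 2 + v 6).val + 8 * (v 3 + v 6).val
    + 16 * (v 4 + v 6).val + 32 * (v 5 + v 6).val

def witc4 (v : Fin 7 → ZMod 2) : (ℤ × ℤ × ℤ) × (ℤ × ℤ × ℤ) :=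
  (tabc4.getD (codec4 v) ((0, 0, 0), (0, 0, 0)))

theorem maskc4_41 : ∀ a : ZMod 41, IsSquare a ↔ Nat.testBit 1870503675703 a.val = true := by
  decide +kernel

theorem maskc4_89 : ∀ a : ZMod 89, IsSquare a ↔ Nat.testBit 526807005835216593886842679 a.val = true := by
  decide +kernel

theorem tablec4 : ∀ v : Fin 7 → ZMod 2, (∃ j, v j ≠ v 6) →
    (∃ j : Fin 6, v j.castSucc ≠ v 6 + 1) → v 0 = v 1 →
    chk 41 1870503675703 89 3 1 (witc4 v).1 = true ∧ chk 89 526807005835216593886842679 41 3 1 (witc4 v).2 = true ∧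
    ∃ t : ZMod 2, ∀ j : Fin 7,
      clI 41 1870503675703 3 1 (witc4 v).1.1 (witc4 v).1.2.1 (witc4 v).1.2.2 j +
        clI 89 526807005835216593886842679 3 1 (witc4 v).2.1 (witc4 v).2.2.1 (witc4 v).2.2.2 j = v j + t := by
  decide +kernel

/-- case `(m,n,d) = (3,1,41*89)` -/
theorem c4_lower (v : Fin 7 → ZMod 2) (hv : ∃ j, v j ≠ v 6)
    (hv' : ∃ j : Fin 6, v j.castSucc ≠ v 6 + 1) (h01 : v 0 = v 1) :
    ∃ X Y Z g X' Y' Z' g' : ℤ,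
      F 3 1 X Y Z = 41 * g ∧ ((89 * g : ℤ) : ZMod 41) ≠ 0 ∧ IsSquare ((89 * g : ℤ) : ZMod 41) ∧
      F 3 1 X' Y' Z' = 89 * g' ∧ ((41 * g' : ℤ) : ZMod 89) ≠ 0 ∧
      IsSquare ((41 * g' : ℤ) : ZMod 89) ∧ ∃ t : ZMod 2, ∀ j : Fin 7,
      cls 3 1 (X : ZMod 41) (Y : ZMod 41) (Z : ZMod 41) j +
        cls 3 1 (X' : ZMod 89) (Y' : ZMod 89) (Z' : ZMod 89) j = v j + t := by
  obtain ⟨h1, h2, t, ht⟩ := tablec4 v hv hv' h01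
  obtain ⟨g, hg, hg1, hg2⟩ := chk_spec (p := 41) 1870503675703 maskc4_41 89 3 1 _ h1
  obtain ⟨g', hg', hg1', hg2'⟩ := chk_spec (p := 89) 526807005835216593886842679 maskc4_89 41 3 1 _ h2
  refine ⟨_, _, _, g, _, _, _, g', by exact_mod_cast hg, hg1, hg2, by exact_mod_cast hg', hg1', hg2',
    t, fun j => ?_⟩
  rw [cls_intCast 1870503675703 maskc4_41, cls_intCast 526807005835216593886842679 maskc4_89]
  exact ht j

end Pool.Agent.Helper8.DP2
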