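import Pool.Agent.Helper1.DP2.ClsInt

set_option autoImplicit false

namespace Pool.Agent.Helper8.DP2

/-- witnesses at `43` and `67`, listed by codes -/
def tabc5 : List ((ℤ × ℤ × ℤ) × (ℤ × ℤ × ℤ)) :=
  [((0, 0, 0), (0, 0, 0)), ((8, 9, -6), (5, -12, -4)),
   ((8, 9, -6), (12, -5, 4)), ((8, 9, -6), (17, 24, 26)),
   ((8, 9, -6), (12, 4, 5)), ((6, 8, -9), (17, 24, 26)),
   ((8, 6, 9), (17, 24, 26)), ((8, 9, -6), (4, 12, -5)),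
   ((8, 6, 9), (5, 4, 12)), ((3, -22, -18), (5, -12, -4)),
   ((8, 9, -6), (17, -24, 26)), ((8, 9, -6), (4, -5, 12)),
   ((6, 8, -9), (17, -24, 26)), ((8, 9, -6), (5, 4, 12)),
   ((8, 6, 9), (4, -5, 12)), ((8, 6, 9), (17, -24, 26)),
   ((8, 6, 9), (5, 4, -12)), ((8, 9, -6), (17, -24, -26)),
   ((3, -22, -18), (12, -5, -4)), ((8, 9, -6), (5, -4, -12)),
   ((8, 6, 9), (17, -24, -26)), ((8, 9, -6), (5, 4, -12)),
   ((8, 6, 9), (5, -4, -12)), ((6, 8, -9), (17, -24, -26)),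
   ((8, 9, -6), (17, 26, -24)), ((8, 9, -6), (5, -12, 4)),
   ((8, 9, -6), (12, -5, -4)), ((3, -22, -18), (5, -4, -12)),
   ((8, 9, -6), (12, 5, -4)), ((8, 6, 9), (17, 26, -24)),
   ((6, 8, -9), (17, 26, -24)), ((8, 9, -6), (5, 12, 4)),
   ((8, 9, -6), (4, 12, 5)), ((6, 8, -9), (17, 24, -26)),
   ((8, 6, 9), (17, 24, -26)), ((8, 9, -6), (12, 4, -5)),
   ((3, -22, -18), (4, -5, -12)), ((8, 9, -6), (12, -4, -5)),
   ((8, 9, -6), (4, -12, 5)), ((8, 9, -6), (17, 24, -26)),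
   ((6, 8, -9), (17, -26, -24)), ((8, 6, 9), (4, -5, -12)),
   ((8, 9, -6), (4, 5, -12)), ((8, 6, 9), (17, -26, -24)),
   ((8, 9, -6), (4, -5, -12)), ((3, -22, -18), (12, -4, -5)),
   ((8, 9, -6), (17, -26, -24)), ((8, 6, 9), (4, 5, -12)),
   ((8, 6, 9), (17, -26, 24)), ((8, 6, 9), (5, -4, 12)),
   ((8, 9, -6), (4, 5, 12)), ((6, 8, -9), (17, -26, 24)),
   ((8, 9, -6), (5, -4, 12)), ((8, 9, -6), (17, -26, 24)),
   ((3, -22, -18), (4, -12, -5)), ((8, 6, 9), (4, 5, 12)),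
   ((8, 9, -6), (5, 12, -4)), ((8, 6, 9), (17, 26, 24)),
   ((6, 8, -9), (17, 26, 24)), ((8, 9, -6), (12, 5, 4)),
   ((8, 9, -6), (17, 26, 24)), ((8, 9, -6), (12, -4, 5)),
   ((8, 9, -6), (4, -12, -5)), ((0, 0, 0), (0, 0, 0))]

def codec5 (v : Fin 7 → ZMod 2) : ℕ :=
  (v 0 + v 6).val + 2 * (v 1 + v 6).val + 4 * (v 2 + v 6).val + 8 * (v 3 + v 6).val
    + 16 * (v 4 + v 6).val + 32 * (v 5 + v 6).val

def witc5 (v : Fin 7 → ZMod 2) : (ℤ × ℤ × ℤ) × (ℤ × ℤ × ℤ) :=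
  (tabc5.getD (codec5 v) ((0, 0, 0), (0, 0, 0)))

theorem maskc5_43 : ∀ a : ZMod 43, IsSquare a ↔ Nat.testBit 3678700564051 a.val = true := by
  decide +kernel

theorem maskc5_67 : ∀ a : ZMod 67, IsSquare a ↔ Nat.testBit 61808106872519771731 a.val = true := by
  decide +kernel

theorem tablec5 : ∀ v : Fin 7 → ZMod 2, (∃ j, v j ≠ v 6) →
    (∃ j : Fin 6, v j.castSucc ≠ v 6 + 1) →
    chk 43 3678700564051 67 2 1 (witc5 v).1 = true ∧ chk 67 61808106872519771731 43 2 1 (witc5 v).2 = true ∧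
    ∃ t : ZMod 2, ∀ j : Fin 7,
      clI 43 3678700564051 2 1 (witc5 v).1.1 (witc5 v).1.2.1 (witc5 v).1.2.2 j +
        clI 67 61808106872519771731 2 1 (witc5 v).2.1 (witc5 v).2.2.1 (witc5 v).2.2.2 j = v j + t := by
  decide +kernel

/-- case `(m,n,d) = (2,1,43*67)` -/
theorem c5_lower (v : Fin 7 → ZMod 2) (hv : ∃ j, v j ≠ v 6)
    (hv' : ∃ j : Fin 6, v j.castSucc ≠ v 6 + 1) :
    ∃ X Y Z g X' Y' Z' g' : ℤ,
      F 2 1 X Y Z = 43 * g ∧ ((67 * g : ℤ) : ZMod 43) ≠ 0 ∧ IsSquare ((67 * g : ℤ) : ZMod 43) ∧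
      F 2 1 X' Y' Z' = 67 * g' ∧ ((43 * g' : ℤ) : ZMod 67) ≠ 0 ∧
      IsSquare ((43 * g' : ℤ) : ZMod 67) ∧ ∃ t : ZMod 2, ∀ j : Fin 7,
      cls 2 1 (X : ZMod 43) (Y : ZMod 43) (Z : ZMod 43) j +
        cls 2 1 (X' : ZMod 67) (Y' : ZMod 67) (Z' : ZMod 67) j = v j + t := by
  obtain ⟨h1, h2, t, ht⟩ := tablec5 v hv hv'
  obtain ⟨g, hg, hg1, hg2⟩ := chk_spec (p := 43) 3678700564051 maskc5_43 67 2 1 _ h1
  obtain ⟨g', hg', hg1', hg2'⟩ := chk_spec (p := 67) 61808106872519771731 maskc5_67 43 2 1 _ h2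
  refine ⟨_, _, _, g, _, _, _, g', by exact_mod_cast hg, hg1, hg2, by exact_mod_cast hg', hg1', hg2',
    t, fun j => ?_⟩
  rw [cls_intCast 3678700564051 maskc5_43, cls_intCast 61808106872519771731 maskc5_67]
  exact ht j

end Pool.Agent.Helper8.DP2
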