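import Pool.Agent.Helper8.DP2.Defs

set_option autoImplicit false

/-!
Computable versions of the class vectors of integral points.
-/

namespace Pool.Agent.Helper8.DP2

/-- squares modulo `p` as a bit mask -/
def sqI (p msk : ℕ) (a : ℤ) : Bool := Nat.testBit msk (a % (p : ℤ)).toNat

/-- the reduced entries on integers -/
def redI (p : ℕ) (m n X Y Z : ℤ) (j : Fin 7) : ℤ :=
  if lin m n X Y Z j % (p : ℤ) ≠ 0 then lin m n X Y Z j else - com m n X Y Z j

/-- the class vector on integers -/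
def clI (p msk : ℕ) (m n X Y Z : ℤ) (j : Fin 7) : ZMod 2 :=
  if sqI p msk (redI p m n X Y Z j) = true then 0 else 1

theorem lin_intCast {R : Type*} [CommRing R] (m n X Y Z : ℤ) (j : Fin 7) :
    lin m n (X : R) (Y : R) (Z : R) j = ((lin m n X Y Z j : ℤ) : R) := by
  fin_cases j <;> simp [lin]

theorem com_intCast {R : Type*} [CommRing R] (m n X Y Z : ℤ) (j : Fin 7) :
    com m n (X : R) (Y : R) (Z : R) j = ((com m n X Y Z j : ℤ) : R) := by
  fin_cases j <;> simp [com, kap]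

theorem isSquare_iff_sqI {p : ℕ} [NeZero p] (msk : ℕ)
    (hm : ∀ a : ZMod p, IsSquare a ↔ Nat.testBit msk a.val = true) (a : ℤ) :
    IsSquare ((a : ℤ) : ZMod p) ↔ sqI p msk a = true := by
  rw [hm, sqI]
  have h : ((a : ZMod p).val : ℤ) = a % p := ZMod.val_intCast a
  have h2 : (a : ZMod p).val = (a % (p : ℤ)).toNat := by rw [← h, Int.toNat_natCast]
  rw [h2]

theorem red_intCast {p : ℕ} (m n X Y Z : ℤ) (j : Fin 7) :
    red m n (X : ZMod p) (Y : ZMod p) (Z : ZMod p) j = ((redI p m n X Y Z j : ℤ) : ZMod p) := by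
  classical
  unfold red redI
  rw [lin_intCast, com_intCast]
  have h : ((lin m n X Y Z j : ℤ) : ZMod p) = 0 ↔ lin m n X Y Z j % (p : ℤ) = 0 := by
    rw [ZMod.intCast_zmod_eq_zero_iff_dvd]
    exact Int.dvd_iff_emod_eq_zero
  by_cases h1 : lin m n X Y Z j % (p : ℤ) = 0
  · rw [if_neg (by simpa using h.2 h1), if_neg (by simpa using h1)]
    push_cast
    rfl
  · rw [if_pos (fun h2 => h1 (h.1 h2)), if_pos h1]

theorem cls_intCast {p : ℕ} [NeZero p] (msk : ℕ)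
    (hm : ∀ a : ZMod p, IsSquare a ↔ Nat.testBit msk a.val = true) (m n X Y Z : ℤ) (j : Fin 7) :
    cls m n (X : ZMod p) (Y : ZMod p) (Z : ZMod p) j = clI p msk m n X Y Z j := by
  classical
  unfold cls clI
  rw [red_intCast]
  have h := isSquare_iff_sqI msk hm (redI p m n X Y Z j)
  by_cases h1 : sqI p msk (redI p m n X Y Z j) = true
  · rw [if_pos (h.2 h1), if_pos h1]
  · rw [if_neg (fun h2 => h1 (h.1 h2)), if_neg h1]

/-- the test for a witness -/
def chk (p msk : ℕ) (e m n : ℤ) (q : ℤ × ℤ × ℤ) : Bool :=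
  F m n q.1 q.2.1 q.2.2 % (p : ℤ) == 0 &&
    (e * (F m n q.1 q.2.1 q.2.2 / (p : ℤ))) % (p : ℤ) != 0 &&
    sqI p msk (e * (F m n q.1 q.2.1 q.2.2 / (p : ℤ)))

theorem chk_spec {p : ℕ} [NeZero p] (msk : ℕ)
    (hm : ∀ a : ZMod p, IsSquare a ↔ Nat.testBit msk a.val = true) (e m n : ℤ) (q : ℤ × ℤ × ℤ)
    (h : chk p msk e m n q = true) :
    ∃ g : ℤ, F m n q.1 q.2.1 q.2.2 = (p : ℤ) * g ∧ ((e * g : ℤ) : ZMod p) ≠ 0 ∧
      IsSquare ((e * g : ℤ) : ZMod p) := by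
  unfold chk at h
  simp only [Bool.and_eq_true, beq_iff_eq, bne_iff_ne] at h
  obtain ⟨⟨h1, h2⟩, h3⟩ := h
  refine ⟨F m n q.1 q.2.1 q.2.2 / (p : ℤ), ?_, ?_, ?_⟩
  · exact (Int.mul_ediv_cancel' (Int.dvd_of_emod_eq_zero h1)).symm
  · intro h4
    exact h2 (Int.emod_eq_zero_of_dvd ((ZMod.intCast_zmod_eq_zero_iff_dvd _ _).1 h4))
  · exact (isSquare_iff_sqI msk hm _).2 h3

end Pool.Agent.Helper8.DP2
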