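import Pool.Agent.Helper1.DP2.NormBasic
import Pool.Agent.Helper18.DP2.Split

set_option autoImplicit false

namespace Pool.Agent.Helper8.DP2

open Quaternion

theorem inv_eq_zero_iff {m n d : ℤ} {K : Type*} [Field K] (h2 : (2 : K) ≠ 0) (hd : (d : K) ≠ 0)
    (P : Pt m n d K) (T : Finset (Fin 7)) :
    inv P T = 0 ↔ IsN K (d : K) (∏ i ∈ T, ent P i) := by
  have h0 : (∏ i ∈ T, ent P i) ≠ 0 := Finset.prod_ne_zero_iff.2 fun i _ => ent_ne_zero hd P i
  rw [← split_iff h2 h0 hd]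
  unfold inv
  split_ifs with h
  · exact ⟨fun _ => h, fun _ => rfl⟩
  · exact ⟨fun h1 => absurd h1 one_ne_zero, fun h1 => absurd h1 h⟩

/-- places where `d` is a square -/
theorem sq_place {m n d : ℤ} {K : Type*} [Field K] [CharZero K] (hm : m ≠ 0) (hd : d ≠ 0)
    (h : IsSquare (d : K)) :
    (∀ (P : Pt m n d K) (T : Finset (Fin 7)), inv P T = 0) ∧ Nonempty (Pt m n d K) := by
  have hd' : (d : K) ≠ 0 := by exact_mod_cast hd
  have hm' : (m : K) ≠ 0 := by exact_mod_cast hm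
  refine ⟨fun P T => ?_, ?_⟩
  · rw [inv_eq_zero_iff two_ne_zero hd']
    exact IsN.of_isSquare two_ne_zero hd' h _
  · obtain ⟨e, he⟩ := h
    refine ⟨⟨n, m, 0, e * ((m : K) ^ 4 + (n : K) ^ 4), fun h => hm' h.2.1, ?_⟩⟩
    rw [he]
    unfold F
    ring

end Pool.Agent.Helper8.DP2
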