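import Pool.Agent.Helper8.DP2.Defs

set_option autoImplicit false

namespace Pool.Agent.Helper8.DP2

open Quaternion

theorem IsN.mul {K : Type*} [Field K] {d a b : K} (ha : IsN K d a) (hb : IsN K d b) :
    IsN K d (a * b) := by
  obtain ⟨u, v, rfl⟩ := ha
  obtain ⟨s, t, rfl⟩ := hb
  exact ⟨u * s + d * v * t, u * t + v * s, by ring⟩

theorem IsN.mul_iff {K : Type*} [Field K] {d a b : K} (ha0 : a ≠ 0) (ha : IsN K d a) :
    IsN K d (a * b) ↔ IsN K d b := by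
  refine ⟨fun h => ?_, fun h => IsN.mul ha h⟩
  obtain ⟨u, v, huv⟩ := ha
  have h1 : IsN K d (a⁻¹) := by
    refine ⟨u * a⁻¹, v * a⁻¹, ?_⟩
    have : (u * a⁻¹) ^ 2 - d * (v * a⁻¹) ^ 2 = (u ^ 2 - d * v ^ 2) * (a⁻¹) ^ 2 := by ring
    rw [this, ← huv]
    field_simp
  have h2 := IsN.mul h1 h
  rwa [← mul_assoc, inv_mul_cancel₀ ha0, one_mul] at h2

theorem IsN.sq_mul_iff {K : Type*} [Field K] {d a t : K} (ht : t ≠ 0) :
    IsN K d (t ^ 2 * a) ↔ IsN K d a :=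
  IsN.mul_iff (pow_ne_zero 2 ht) ⟨t, 0, by ring⟩

theorem IsN.neg_self {K : Type*} [Field K] (d : K) : IsN K d (-d) :=
  ⟨0, 1, by ring⟩

theorem IsN.one {K : Type*} [Field K] (d : K) : IsN K d 1 :=
  ⟨1, 0, by ring⟩

theorem IsN.of_isSquare {K : Type*} [Field K] (h2 : (2 : K) ≠ 0) {d : K} (hd : d ≠ 0)
    (h : IsSquare d) (a : K) : IsN K d a := by
  obtain ⟨e, rfl⟩ := h
  have he : e ≠ 0 := fun h => hd (by simp [h])
  refine ⟨(a + 1) / 2, (a - 1) / (2 * e), ?_⟩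
  field_simp
  ring

theorem ent_ne_zero {m n d : ℤ} {K : Type*} [Field K] (hd : (d : K) ≠ 0) (P : Pt m n d K)
    (i : Fin 7) : ent P i ≠ 0 := by
  unfold ent
  split_ifs with h1 h2
  · exact h1
  · exact mul_ne_zero hd h2
  · exact one_ne_zero

end Pool.Agent.Helper8.DP2
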